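import Pool.Agent.W78.EC.Defs2

/-!
Part EC-B5: `Gv` as a sum over pairs of integers.
-/

set_option autoImplicit false

namespace Pool.Agent.W335.EC

open Finset Filter
open Pool.Agent.W78.GA Pool.Agent.W78.EC

lemma hD01 : (0 : ℤ) ^ 2 < 4 * 1 := by norm_num

lemma nm01 (z : Gi) : (nm z : ℝ) = (z.re : ℝ) ^ 2 + (z.im : ℝ) ^ 2 := by
  rw [nm_castR hD01]
  push_cast
  ring

lemma th_ne {Q : ℕ} {m : ℤ} (h : th Q m ≠ 0) : 0 < m ∧ m.toNat ∈ Ioc Q (2 * Q) := by
  unfold th at h
  split_ifs at h with h1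
  · exact ⟨h1.1, (mem_filter.1 h1.2).1⟩
  · exact absurd rfl h

lemma psi_ne {x : ℝ} (h : psi x ≠ 0) : x < 4 := by
  by_contra hcon
  push Not at hcon
  apply h
  unfold psi
  rw [max_eq_left (by linarith)]
  norm_num

/-- recovering the vector from its determinants with two vectors -/
lemma re_rec (v w₁ w₂ : Gi) : dt w₁ w₂ * v.re = dt v w₂ * w₁.re - dt v w₁ * w₂.re := by
  unfold dt
  ring

lemma im_rec (v w₁ w₂ : Gi) : dt w₁ w₂ * v.im = dt v w₂ * w₁.im - dt v w₁ * w₂.im := by
  unfold dt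
  ring

theorem gvl : S_GVL := by
  classical
  intro Q X w₁ w₂ hX hp₁ hp₂ hD
  set D : ℤ := dt w₁ w₂ with hDd
  have hDn : ((D.toNat : ℕ) : ℤ) = D := Int.toNat_of_nonneg hD.le
  have hDn0 : 0 < D.toNat := by omega
  -- Bezout
  obtain ⟨α, β, hαβ⟩ : ∃ α β : ℤ, α * w₁.re + β * w₁.im = 1 := by
    have h1 : IsCoprime w₁.re w₁.im := Int.isCoprime_iff_gcd_eq_one.2 hp₁
    obtain ⟨α, β, h⟩ := h1
    exact ⟨α, β, h⟩
  have hcop₂ : IsCoprime w₂.re w₂.im := Int.isCoprime_iff_gcd_eq_one.2 hp₂
  set c₀ : ℤ := α * w₂.re + β * w₂.im with hc₀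
  have hre₀ : D ∣ w₂.re - c₀ * w₁.re := by
    refine ⟨-β, ?_⟩
    have : w₂.re - c₀ * w₁.re = w₂.re * (α * w₁.re + β * w₁.im) - c₀ * w₁.re := by
      rw [hαβ, mul_one]
    rw [this, hc₀, hDd]
    unfold dt
    ring
  have him₀ : D ∣ w₂.im - c₀ * w₁.im := by
    refine ⟨α, ?_⟩
    have : w₂.im - c₀ * w₁.im = w₂.im * (α * w₁.re + β * w₁.im) - c₀ * w₁.im := by
      rw [hαβ, mul_one]
    rw [this, hc₀, hDd]
    unfold dt
    ring
  set c : ℕ := (c₀ % D).toNat with hc
  have hcn : (c : ℤ) = c₀ % D := Int.toNat_of_nonneg (Int.emod_nonneg _ hD.ne')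
  have hcc : D ∣ c₀ - c := by
    rw [hcn]
    exact Int.dvd_self_sub_emod
  have hre : D ∣ w₂.re - c * w₁.re := by
    have : w₂.re - c * w₁.re = (w₂.re - c₀ * w₁.re) + (c₀ - c) * w₁.re := by ring
    rw [this]
    exact dvd_add hre₀ (hcc.mul_right _)
  have him : D ∣ w₂.im - c * w₁.im := by
    have : w₂.im - c * w₁.im = (w₂.im - c₀ * w₁.im) + (c₀ - c) * w₁.im := by ring
    rw [this]
    exact dvd_add him₀ (hcc.mul_right _)
  have hclt : c < D.toNat := by
    have : (c : ℤ) < D := by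
      rw [hcn]
      exact Int.emod_lt_of_pos _ hD
    omega
  have hccop : Nat.Coprime c D.toNat := by
    rw [← Nat.isCoprime_iff_coprime, hDn]
    obtain ⟨a, b, hab⟩ := hcop₂
    obtain ⟨x, hx⟩ := hre
    obtain ⟨y, hy⟩ := him
    refine ⟨a * w₁.re + b * w₁.im, a * x + b * y, ?_⟩
    linear_combination hab - a * hx - b * hy
  refine ⟨c, hclt, hccop, hre, him, ?_, ?_⟩
  · -- the value of `xi`
    unfold xi ch4
    rw [← hDd]
    have e : (4 ∣ D.toNat) ↔ (4 : ℤ) ∣ D := by
      rw [← hDn]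
      exact_mod_cast (Int.natCast_dvd_natCast (m := 4) (n := D.toNat)).symm
    by_cases h4 : (4 : ℤ) ∣ D
    · rw [if_pos h4, if_pos (e.2 h4)]
      have h5 : ((4 : ℤ) ∣ w₂.re - w₁.re ∧ (4 : ℤ) ∣ w₂.im - w₁.im) ↔ c % 4 = 1 := by
        constructor
        · rintro ⟨h6, h7⟩
          have h8 : (4 : ℤ) ∣ (c - 1) * w₁.re := by
            have : ((c : ℤ) - 1) * w₁.re = (w₂.re - w₁.re) - (w₂.re - c * w₁.re) := by ring
            rw [this]
            exact dvd_sub h6 (h4.trans hre)
          have h9 : (4 : ℤ) ∣ (c - 1) * w₁.im := by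
            have : ((c : ℤ) - 1) * w₁.im = (w₂.im - w₁.im) - (w₂.im - c * w₁.im) := by ring
            rw [this]
            exact dvd_sub h7 (h4.trans him)
          have h10 : (4 : ℤ) ∣ (c : ℤ) - 1 := by
            have : (c : ℤ) - 1 = α * (((c : ℤ) - 1) * w₁.re) + β * (((c : ℤ) - 1) * w₁.im) := by
              have : α * (((c : ℤ) - 1) * w₁.re) + β * (((c : ℤ) - 1) * w₁.im) =
                ((c : ℤ) - 1) * (α * w₁.re + β * w₁.im) := by ring
              rw [this, hαβ, mul_one]
            rw [this]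
            exact dvd_add (h8.mul_left _) (h9.mul_left _)
          omega
        · intro h6
          have h10 : (4 : ℤ) ∣ (c : ℤ) - 1 := by omega
          constructor
          · have : w₂.re - w₁.re = (w₂.re - c * w₁.re) + ((c : ℤ) - 1) * w₁.re := by ring
            rw [this]
            exact dvd_add (h4.trans hre) (h10.mul_right _)
          · have : w₂.im - w₁.im = (w₂.im - c * w₁.im) + ((c : ℤ) - 1) * w₁.im := by ring
            rw [this]
            exact dvd_add (h4.trans him) (h10.mul_right _)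
      by_cases h6 : c % 4 = 1
      · rw [if_pos (h5.2 h6), if_pos h6]
        norm_num
      · rw [if_neg (fun h => h6 (h5.1 h)), if_neg h6]
        norm_num
    · rw [if_neg h4, if_neg (fun h => h4 (e.1 h))]
      norm_num
  · -- the bijection
    rw [← Finset.sum_product', Gv]
    -- congruences
    have hcong : ∀ m₁ m₂ : ℕ, m₂ ≡ c * m₁ [MOD D.toNat] ↔ D ∣ (m₂ : ℤ) - c * m₁ := by
      intro m₁ m₂
      rw [Nat.ModEq.comm, Nat.modEq_iff_dvd, hDn]
      push_cast
      rfl
    -- the norm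
    have hnm : ∀ (m₁ m₂ : ℕ) (v : Gi), D * v.re = m₂ * w₁.re - m₁ * w₂.re →
        D * v.im = m₂ * w₁.im - m₁ * w₂.im →
        (nm ((m₂ : Gi) * w₁ - (m₁ : Gi) * w₂) : ℝ) / ((D : ℝ) ^ 2 * X) = nm v / X := by
      intro m₁ m₂ v h1 h2
      have h3 : (nm ((m₂ : Gi) * w₁ - (m₁ : Gi) * w₂) : ℝ) = (D : ℝ) ^ 2 * nm v := by
        have e1 : ((m₂ : Gi) * w₁ - (m₁ : Gi) * w₂).re = D * v.re := by
          rw [h1]
          simp only [QuadraticAlgebra.re_sub, QuadraticAlgebra.re_mul,
            QuadraticAlgebra.re_natCast, QuadraticAlgebra.im_natCast]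
          ring
        have e2 : ((m₂ : Gi) * w₁ - (m₁ : Gi) * w₂).im = D * v.im := by
          rw [h2]
          simp only [QuadraticAlgebra.im_sub, QuadraticAlgebra.im_mul,
            QuadraticAlgebra.re_natCast, QuadraticAlgebra.im_natCast]
          ring
        rw [nm01, nm01, e1, e2]
        push_cast
        ring
      have hD0 : (D : ℝ) ≠ 0 := by exact_mod_cast hD.ne'
      have hX0 : X ≠ 0 := by linarith
      rw [h3]
      field_simp
    refine Finset.sum_bij_ne_zero (fun v _ _ => ((dt v w₁).toNat, (dt v w₂).toNat)) ?_ ?_ ?_ ?_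
    · intro v _ hne
      have h1 := th_ne (right_ne_zero_of_mul (left_ne_zero_of_mul hne))
      have h2 := th_ne (right_ne_zero_of_mul hne)
      exact mem_product.2 ⟨h1.2, h2.2⟩
    · intro v _ hne v' _ hne' heq
      have h1 := th_ne (right_ne_zero_of_mul (left_ne_zero_of_mul hne))
      have h2 := th_ne (right_ne_zero_of_mul hne)
      have h1' := th_ne (right_ne_zero_of_mul (left_ne_zero_of_mul hne'))
      have h2' := th_ne (right_ne_zero_of_mul hne')
      rw [Prod.mk.injEq] at heq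
      have e1 : dt v w₁ = dt v' w₁ := by omega
      have e2 : dt v w₂ = dt v' w₂ := by omega
      have r1 := re_rec v w₁ w₂
      have r2 := re_rec v' w₁ w₂
      have i1 := im_rec v w₁ w₂
      have i2 := im_rec v' w₁ w₂
      rw [e1, e2, ← r2] at r1
      rw [e1, e2, ← i2] at i1
      exact QuadraticAlgebra.ext (mul_left_cancel₀ hD.ne' r1) (mul_left_cancel₀ hD.ne' i1)
    · rintro ⟨m₁, m₂⟩ hm hne
      dsimp only at hne
      have hcg : m₂ ≡ c * m₁ [MOD D.toNat] := by
        by_contra hcon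
        rw [if_neg hcon, zero_mul] at hne
        exact hne rfl
      have hne2 := hne
      rw [if_pos hcg] at hne2
      have hdv := (hcong m₁ m₂).1 hcg
      have hm1 := (mem_Ioc.1 (mem_product.1 hm).1)
      have hm2 := (mem_Ioc.1 (mem_product.1 hm).2)
      dsimp only at hm1 hm2
      obtain ⟨x, hx⟩ : D ∣ (m₂ : ℤ) * w₁.re - m₁ * w₂.re := by
        have : (m₂ : ℤ) * w₁.re - m₁ * w₂.re =
          ((m₂ : ℤ) - c * m₁) * w₁.re - m₁ * (w₂.re - c * w₁.re) := by ring
        rw [this]
        exact dvd_sub (hdv.mul_right _) (hre.mul_left _)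
      obtain ⟨y, hy⟩ : D ∣ (m₂ : ℤ) * w₁.im - m₁ * w₂.im := by
        have : (m₂ : ℤ) * w₁.im - m₁ * w₂.im =
          ((m₂ : ℤ) - c * m₁) * w₁.im - m₁ * (w₂.im - c * w₁.im) := by ring
        rw [this]
        exact dvd_sub (hdv.mul_right _) (him.mul_left _)
      set v : Gi := ⟨x, y⟩ with hv
      have d1 : dt v w₁ = m₁ := by
        apply mul_left_cancel₀ hD.ne'
        have : D * dt v w₁ = (D * x) * w₁.im - (D * y) * w₁.re := by
          rw [hv]
          unfold dt
          ring
        rw [this, ← hx, ← hy, hDd]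
        unfold dt
        ring
      have d2 : dt v w₂ = m₂ := by
        apply mul_left_cancel₀ hD.ne'
        have : D * dt v w₂ = (D * x) * w₂.im - (D * y) * w₂.re := by
          rw [hv]
          unfold dt
          ring
        rw [this, ← hx, ← hy, hDd]
        unfold dt
        ring
      have hn := hnm m₁ m₂ v hx.symm hy.symm
      rw [hn] at hne2
      have hpsi := psi_ne (right_ne_zero_of_mul hne2)
      have hX0 : 0 < X := by linarith
      have hvne : v ≠ 0 := by
        intro h0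
        rw [h0] at d1
        unfold dt at d1
        simp at d1
        omega
      refine ⟨v, ?_, ?_, ?_⟩
      · rw [mem_ball hD01]
        refine ⟨(one_le_nm hD01).2 hvne, ?_⟩
        rw [div_lt_iff₀ hX0] at hpsi
        exact hpsi.le
      · rw [d1, d2]
        intro h0
        apply hne2
        rw [← h0]
        ring
      · rw [d1, d2, Int.toNat_natCast, Int.toNat_natCast]
    · intro v _ hne
      have h1 := th_ne (right_ne_zero_of_mul (left_ne_zero_of_mul hne))
      have h2 := th_ne (right_ne_zero_of_mul hne)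
      dsimp only
      have e1 : (((dt v w₁).toNat : ℕ) : ℤ) = dt v w₁ := Int.toNat_of_nonneg h1.1.le
      have e2 : (((dt v w₂).toNat : ℕ) : ℤ) = dt v w₂ := Int.toNat_of_nonneg h2.1.le
      have hcg : (dt v w₂).toNat ≡ c * (dt v w₁).toNat [MOD D.toNat] := by
        rw [hcong, e1, e2]
        have : dt v w₂ - c * dt v w₁ =
          v.re * (w₂.im - c * w₁.im) - v.im * (w₂.re - c * w₁.re) := by
          unfold dt
          ring
        rw [this]
        exact dvd_sub (him.mul_left _) (hre.mul_left _)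
      rw [if_pos hcg, e1, e2, hnm (dt v w₁).toNat (dt v w₂).toNat v
        (by rw [e1, e2]; exact re_rec v w₁ w₂) (by rw [e1, e2]; exact im_rec v w₁ w₂)]
      ring

end Pool.Agent.W335.EC
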