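import Pool.Agent.W996.EC.QStm

/-! EC project: the final dichotomy with arbitrary `H` (S_Q). -/

set_option autoImplicit false

namespace Pool.W335.EC

open Pool.Agent.W996.EC
open Polynomial Filter Topology

lemma countable_zeros {a : ℂ → ℂ} (ha : Differentiable ℂ a) (hne : ∃ z, a z ≠ 0) :
    {x | a x = 0}.Countable := by
  have hev : ∀ c : ℂ, ∀ᶠ x in 𝓝[≠] c, a x ≠ 0 := by
    intro c
    have haa : AnalyticOnNhd ℂ a Set.univ := fun z _ => ha.analyticAt z
    rcases (ha.analyticAt c).eventually_eq_zero_or_eventually_ne_zero with h | h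
    · exfalso
      obtain ⟨z, hz⟩ := hne
      apply hz
      have := haa.eqOn_zero_of_preconnected_of_eventuallyEq_zero isPreconnected_univ
        (Set.mem_univ c) h
      exact this (Set.mem_univ z)
    · exact h
  apply (HereditarilyLindelofSpace.isLindelof _).countable_of_isDiscrete
  rw [isDiscrete_iff_nhdsNE]
  intro c _
  rw [← _root_.disjoint_iff, Filter.disjoint_principal_right]
  filter_upwards [hev c] with x hx
  exact hx

lemma exp_fibre (c : ℂ) : {w : ℂ | Complex.exp w = c}.Countable := by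
  by_cases h : ∃ w0, Complex.exp w0 = c
  · obtain ⟨w0, rfl⟩ := h
    refine (Set.countable_range (fun n : ℤ => w0 + n * (2 * Real.pi * Complex.I))).mono ?_
    intro w hw
    obtain ⟨n, hn⟩ := Complex.exp_eq_exp_iff_exists_int.1 hw
    exact ⟨n, hn.symm⟩
  · have : {w : ℂ | Complex.exp w = c} = ∅ := by
      ext w
      simp only [Set.mem_ofPred_eq, Set.mem_empty_iff_false, iff_false]
      exact fun hw => h ⟨w, hw⟩
    rw [this]
    exact Set.countable_empty

lemma exp_fibres {n : ℕ} (c : Fin n → ℂ) :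
    {x : Fin n → ℂ | ∀ i, Complex.exp (x i) = c i}.Countable := by
  have := Set.countable_univ_pi (s := fun i => {w : ℂ | Complex.exp w = c i})
    (fun i => exp_fibre (c i))
  refine this.mono ?_
  intro x hx i _
  exact hx i

lemma map_ne {F : ℂ[X][X]} (hF : Irreducible F) (hd : 1 ≤ F.natDegree) (z : ℂ) :
    F.map (evalRingHom z) ≠ 0 := by
  intro h0
  have hdvd : C (X - C z : ℂ[X]) ∣ F := by
    rw [Polynomial.C_dvd_iff_dvd_coeff]
    intro i
    rw [Polynomial.dvd_iff_isRoot, Polynomial.IsRoot]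
    have := congrArg (fun q => Polynomial.coeff q i) h0
    simpa [Polynomial.coeff_map] using this
  obtain ⟨G, hG⟩ := hdvd
  rcases hF.isUnit_or_isUnit hG with h | h
  · have h1 : IsUnit (X - C z : ℂ[X]) := Polynomial.isUnit_C.1 h
    exact Polynomial.not_isUnit_X_sub_C z h1
  · have h1 : G.natDegree = 0 := Polynomial.natDegree_eq_zero_of_isUnit h
    have h2 : F.natDegree ≤ 0 := by
      rw [hG]
      refine Polynomial.natDegree_mul_le.trans ?_
      rw [Polynomial.natDegree_C, h1]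
    omega

theorem t_Q (h1 : S_dich') (h2 : S_res) (h3 : S_cov) : S_Q := by
  classical
  intro n F H A B K f P hF hd hH hAi hBi hf
  -- the good polynomial
  obtain ⟨ρH, hρH, hzH⟩ := finite_zeros h2 hF hd hH
  choose ρA hρA hzA using fun i => finite_zeros h2 hF hd (hAi i)
  choose ρB hρB hzB using fun i => finite_zeros h2 hF hd (hBi i)
  obtain ⟨h, hdvd, hC⟩ := h3 F (ρH * ((∏ i, ρA i) * ∏ i, ρB i)) hF hd
    (mul_ne_zero hρH (mul_ne_zero (Finset.prod_ne_zero_iff.2 fun i _ => hρA i)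
      (Finset.prod_ne_zero_iff.2 fun i _ => hρB i)))
  have hh0 : ∀ z, h.eval z ≠ 0 → (ρH * ((∏ i, ρA i) * ∏ i, ρB i)).eval z ≠ 0 := by
    intro z hz h0
    obtain ⟨k, rfl⟩ := hdvd
    rw [eval_mul, h0, zero_mul] at hz
    exact hz rfl
  have hne : ∀ p ∈ TT F h, H.evalEval p.1 p.2 ≠ 0 ∧ (∀ i, (A i).evalEval p.1 p.2 ≠ 0) ∧
      ∀ i, (B i).evalEval p.1 p.2 ≠ 0 := by
    rintro p ⟨hp1, hp2⟩
    have h1 := hh0 p.1 hp2
    rw [eval_mul, eval_mul, eval_prod, eval_prod] at h1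
    have h2 := left_ne_zero_of_mul h1
    have h3 := left_ne_zero_of_mul (right_ne_zero_of_mul h1)
    have h4 := right_ne_zero_of_mul (right_ne_zero_of_mul h1)
    rw [Finset.prod_ne_zero_iff] at h3 h4
    exact ⟨fun h5 => h2 (hzH _ _ hp1 h5), fun i h5 => h3 i (Finset.mem_univ i) (hzA i _ _ hp1 h5),
      fun i h5 => h4 i (Finset.mem_univ i) (hzB i _ _ hp1 h5)⟩
  set R : Fin n → ℂ × ℂ → ℂ := fun i p => (A i).evalEval p.1 p.2 / (B i).evalEval p.1 p.2 with hR
  have hreg : ∀ i, Reg (TT F h) (R i) := fun i => ⟨A i, B i, fun p hp => ⟨(hne p hp).2.2 i, rfl⟩⟩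
  have hRne : ∀ i, ∀ p ∈ TT F h, R i p ≠ 0 :=
    fun i p hp => div_ne_zero ((hne p hp).2.1 i) ((hne p hp).2.2 i)
  have hdich := h1 n F h R hC hreg hRne K f P hf
  set X1 : Set ℂ := {s : ℂ | ∃ e ∈ ET (TT F h) R,
    ∑ k, f k s * MvPolynomial.eval e.2 (spec (P k) e.1.1 e.1.2) = 0} with hX1
  -- the bad points
  set Bd : Set (ℂ × ℂ × (Fin n → ℂ)) := {e | h.eval e.1 = 0 ∧ F.evalEval e.1 e.2.1 = 0 ∧
    H.evalEval e.1 e.2.1 ≠ 0 ∧ (∀ i, (A i).evalEval e.1 e.2.1 ≠ 0 ∧ (B i).evalEval e.1 e.2.1 ≠ 0) ∧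
    ∀ i, Complex.exp (e.2.2 i) = (A i).evalEval e.1 e.2.1 / (B i).evalEval e.1 e.2.1} with hBd
  have hBc : Bd.Countable := by
    have hsub : Bd ⊆ ⋃ z ∈ {z : ℂ | h.eval z = 0}, ⋃ v ∈ {v : ℂ | F.evalEval z v = 0},
        (fun x : Fin n → ℂ => ((z, v, x) : ℂ × ℂ × (Fin n → ℂ))) ''
          {x | ∀ i, Complex.exp (x i) = (A i).evalEval z v / (B i).evalEval z v} := by
      rintro ⟨z, v, x⟩ hx
      simp only [Set.mem_iUnion]
      exact ⟨z, hx.1, v, hx.2.1, x, hx.2.2.2.2, rfl⟩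
    refine Set.Countable.mono hsub ?_
    have hz : {z : ℂ | h.eval z = 0}.Countable := (Polynomial.finite_setOfPred_isRoot hC.hne).countable
    refine hz.biUnion fun z _ => ?_
    have hv : {v : ℂ | F.evalEval z v = 0}.Countable := by
      have h4 := (Polynomial.finite_setOfPred_isRoot (map_ne hF hd z)).countable
      refine h4.mono ?_
      intro v hv
      show (F.map (evalRingHom z)).IsRoot v
      rw [Polynomial.IsRoot, ← evalEval_map]
      exact hv
    refine hv.biUnion fun v _ => ?_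
    exact (exp_fibres _).image _
  have hX1sub : X1 ⊆ XSet F H A B f P := by
    rintro s ⟨⟨⟨z, v⟩, x⟩, ⟨hp, hx⟩, hs⟩
    have h5 := hne (z, v) hp
    exact ⟨z, v, x, hp.1, h5.1, fun i => ⟨h5.2.1 i, h5.2.2 i⟩, hx, hs⟩
  by_cases hall : ∃ e ∈ Bd, ∀ s : ℂ,
      ∑ k, f k s * MvPolynomial.eval e.2.2 (spec (P k) e.1 e.2.1) = 0
  · right
    obtain ⟨⟨z, v, x⟩, he, hs⟩ := hall
    have : (XSet F H A B f P)ᶜ = ∅ := by
      ext s
      simp only [Set.mem_compl_iff, Set.mem_empty_iff_false, iff_false, not_not]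
      exact ⟨z, v, x, he.2.1, he.2.2.1, he.2.2.2.1, he.2.2.2.2, hs s⟩
    rw [this]
    exact Set.countable_empty
  push Not at hall
  have hX2 : (⋃ e ∈ Bd, {s : ℂ |
      ∑ k, f k s * MvPolynomial.eval e.2.2 (spec (P k) e.1 e.2.1) = 0}).Countable := by
    refine hBc.biUnion fun e he => ?_
    refine countable_zeros ?_ (hall e he)
    exact Differentiable.fun_sum fun k _ => (hf k).mul_const _
  have hXsub : XSet F H A B f P ⊆ X1 ∪ ⋃ e ∈ Bd, {s : ℂ |
      ∑ k, f k s * MvPolynomial.eval e.2.2 (spec (P k) e.1 e.2.1) = 0} := by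
    rintro s ⟨z, v, x, hzv, hHn, hAB, hx, hs⟩
    by_cases hhz : h.eval z = 0
    · right
      simp only [Set.mem_iUnion]
      exact ⟨(z, v, x), ⟨hhz, hzv, hHn, hAB, hx⟩, hs⟩
    · left
      exact ⟨((z, v), x), ⟨⟨hzv, hhz⟩, hx⟩, hs⟩
  rcases hdich with h6 | h6
  · left
    exact (h6.union hX2).mono hXsub
  · right
    exact h6.mono (Set.compl_subset_compl.2 hX1sub)

end Pool.W335.EC
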